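import Pool.Agent.Y138.KC.Final
import Pool.Agent.W290.MF.Num

/-!
# The relations between the eigenvalues on the powers of a K3 surface are generated by pairs
-/

set_option autoImplicit false

open NumberField

namespace Pool.Agent.Y138.KH

open Pool.Agent.W552 Pool.Agent.TH121.KT Pool.Agent.W517.K3 Pool.Agent.Y138.KC
  Pool.Agent.W290.MF

universe v

section

variable {E : Type} [Field E] [NumberField E] [IsCMField E]

/-- the eigenvalues of the letters -/
def IsLetterNum {K : Type v} [Field K] (q D e : ℕ) (α : E) (x : ℕ × K) : Prop :=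
  x.1 = D ∧ ∃ (σ : E →+* K) (N : ℕ), 0 < N ∧
    x.2 ^ (2 * e * N) = (q : K) ^ (D * (e * N)) * σ α ^ (2 * N)

theorem cj_ne_self {A : Type v} [Field A] (σ : E →+* A) : cj σ ≠ σ := by
  intro h
  apply IsCMField.complexConj_ne_one E
  ext x
  have h1 := RingHom.congr_fun h x
  rw [cj_apply] at h1
  have h2 := σ.injective h1
  simpa using h2

/-- Relations with at most `n` letters are balanced. -/
def BalancedUpTo (K : Type v) [Field K] [CharZero K] (α : E) (n : ℕ) : Prop :=
  ∀ (N : (E →+* K) → ℕ) (w : ℕ), 0 < w → ∑ σ, N σ ≤ n → ∏ σ, σ α ^ (w * N σ) = 1 →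
    ∀ σ, N σ = N (cj σ)

theorem pairGenerated_of_balanced {K : Type v} [Field K] [CharZero K] {α : E}
    (hα : ∀ φ : E →+* ℂ, ‖φ α‖ = 1) {n q D e : ℕ} (hq : (q : K) ≠ 0) (he : 0 < e)
    (hbal : BalancedUpTo K α n) :
    ∀ (c : ℕ) (s : Multiset (ℕ × K)), s.card = c → s.card ≤ n →
      (∀ x ∈ s, IsTateRel q {x} ∨ IsLetterNum q D e α x) → IsTateRel q s →
      PairGenerated q s := by
  classical
  intro c
  induction c using Nat.strong_induction_on with
  | _ c ih =>
  intro s hsc hsn hs hrel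
  by_cases h1 : ∃ x ∈ s, IsTateRel q {x}
  · obtain ⟨x, hx, hxr⟩ := h1
    obtain ⟨t, rfl⟩ := Multiset.exists_cons_of_mem hx
    rw [Multiset.card_cons] at hsc hsn
    refine PairGenerated.single hxr (ih t.card (by omega) t rfl (by omega)
      (fun y hy => hs y (Multiset.mem_cons_of_mem hy)) ?_)
    exact tateRel_cancel (s := {x}) hq (by rwa [Multiset.singleton_add]) hxr
  have h2 : ∀ x ∈ s, IsLetterNum q D e α x := fun x hx =>
    (hs x hx).resolve_left fun h => h1 ⟨x, hx, h⟩
  by_cases h0 : s = 0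
  · subst h0
    exact PairGenerated.zero
  obtain ⟨x₀, hx₀⟩ := Multiset.exists_mem_of_ne_zero h0
  have hD : ∀ x ∈ s, x.1 = D := fun x hx => (h2 x hx).1
  have h3 : ∀ x ∈ s, ∃ (σ : E →+* K) (N : ℕ), 0 < N ∧
    x.2 ^ (2 * e * N) = (q : K) ^ (D * (e * N)) * σ α ^ (2 * N) := fun x hx => (h2 x hx).2
  have hemb : Nonempty (E →+* K) := ⟨(h3 x₀ hx₀).choose⟩
  choose! σ N hN hσ using h3
  -- a common exponent
  obtain ⟨M, hM, hMd⟩ : ∃ M, 0 < M ∧ ∀ x ∈ s, N x ∣ M := by
    refine ⟨(s.map N).prod, ?_, ?_⟩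
    · apply Nat.pos_of_ne_zero
      apply Multiset.prod_ne_zero
      intro h
      obtain ⟨x, hx, hx'⟩ := Multiset.mem_map.1 h
      exact (hN x hx).ne' hx'
    · intro x hx
      exact Multiset.dvd_prod (Multiset.mem_map_of_mem N hx)
  have hσM : ∀ x ∈ s, x.2 ^ (2 * e * M) = (q : K) ^ (D * (e * M)) * σ x α ^ (2 * M) := by
    intro x hx
    obtain ⟨b, hb⟩ := hMd x hx
    have h4 := congrArg (fun z => z ^ b) (hσ x hx)
    simp only [mul_pow, ← pow_mul] at h4
    rw [hb]
    convert h4 using 2 <;> ring_nf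
  obtain ⟨j, hj, m, hm, hpr⟩ := hrel
  -- the relation between the conjugates
  let cnt : (E →+* K) → ℕ := fun τ => (s.map σ).count τ
  have hcard : ∑ τ, cnt τ = s.card := by
    have h5 := Multiset.sum_count_eq_card (s := (Finset.univ : Finset (E →+* K)))
      (m := s.map σ) (fun a _ => Finset.mem_univ a)
    rw [Multiset.card_map] at h5
    exact h5
  have hDsum : (s.map Prod.fst).sum = s.card * D := by
    rw [Multiset.map_congr rfl hD, Multiset.map_const', Multiset.sum_replicate, smul_eq_mul]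
  have hprod : ∏ τ, τ α ^ ((2 * M * m) * cnt τ) = 1 := by
    have h5 : ∏ τ, τ α ^ ((2 * M * m) * cnt τ) = (s.map fun x => σ x α ^ (2 * M * m)).prod := by
      have h6 : (s.map fun x => σ x α ^ (2 * M * m)) =
          (s.map σ).map (fun τ => τ α ^ (2 * M * m)) := by
        rw [Multiset.map_map]
        rfl
      rw [h6, Finset.prod_multiset_map_count]
      have h9 : ∏ τ ∈ (s.map σ).toFinset, (τ α ^ (2 * M * m)) ^ ((s.map σ).count τ) =
          ∏ τ : E →+* K, τ α ^ ((2 * M * m) * cnt τ) := by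
        have h10 : ∏ τ ∈ (s.map σ).toFinset, τ α ^ ((2 * M * m) * cnt τ) =
            ∏ τ : E →+* K, τ α ^ ((2 * M * m) * cnt τ) := by
          refine Finset.prod_subset (Finset.subset_univ _) ?_
          intro τ _ hτ
          rw [Multiset.mem_toFinset, ← Multiset.count_eq_zero] at hτ
          change τ α ^ ((2 * M * m) * (s.map σ).count τ) = 1
          rw [hτ, mul_zero, pow_zero]
        rw [← h10]
        refine Finset.prod_congr rfl fun τ _ => ?_
        rw [← pow_mul]
      exact h9.symm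
    rw [h5]
    have h6 : ((s.map Prod.snd).prod ^ m) ^ (2 * e * M) =
        (q : K) ^ (s.card * D * (e * M * m)) * (s.map fun x => σ x α ^ (2 * M * m)).prod := by
      rw [← pow_mul, ← Multiset.prod_map_pow]
      have h7 : s.map (fun x => x.2 ^ (m * (2 * e * M))) =
          s.map (fun x => (q : K) ^ (D * (e * M) * m) * σ x α ^ (2 * M * m)) := by
        refine Multiset.map_congr rfl fun x hx => ?_
        rw [mul_comm m, pow_mul, hσM x hx, mul_pow, ← pow_mul, ← pow_mul]
      rw [h7, Multiset.prod_map_mul, Multiset.map_const', Multiset.prod_replicate, ← pow_mul]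
      congr 2
      ring
    rw [hpr, ← hDsum, hj, ← pow_mul] at h6
    have h8 : (q : K) ^ (m * j * (2 * e * M)) = (q : K) ^ (2 * j * (e * M * m)) := by
      congr 1
      ring
    rw [h8] at h6
    exact (mul_left_cancel₀ (pow_ne_zero _ hq) ((mul_one _).trans h6)).symm
  have hb := hbal cnt (2 * M * m) (Nat.mul_pos (Nat.mul_pos two_pos hM) hm)
    (hcard.le.trans hsn) hprod
  -- the partner
  have h6 : 0 < cnt (cj (σ x₀)) := by
    rw [← hb (σ x₀)]
    exact Multiset.count_pos.2 (Multiset.mem_map_of_mem σ hx₀)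
  obtain ⟨y, hy, hyσ⟩ := Multiset.mem_map.1 (Multiset.count_pos.1 h6)
  have hne : y ≠ x₀ := by
    rintro rfl
    exact cj_ne_self (σ y) hyσ.symm
  obtain ⟨t, rfl⟩ := Multiset.exists_cons_of_mem hx₀
  have hyt : y ∈ t := (Multiset.mem_cons.1 hy).resolve_left hne
  obtain ⟨t, rfl⟩ := Multiset.exists_cons_of_mem hyt
  have hpair : IsTateRel q ({x₀, y} : Multiset (ℕ × K)) := by
    refine ⟨D, ?_, 2 * e * M, Nat.mul_pos (Nat.mul_pos two_pos he) hM, ?_⟩
    · rw [Multiset.insert_eq_cons, Multiset.map_cons, Multiset.map_singleton,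
        Multiset.sum_cons, Multiset.sum_singleton, hD x₀ hx₀, hD y hy, two_mul]
    · rw [Multiset.insert_eq_cons, Multiset.map_cons, Multiset.map_singleton,
        Multiset.prod_cons, Multiset.prod_singleton, mul_pow, hσM x₀ hx₀, hσM y hy, hyσ,
        cj_val hα, inv_pow]
      have h9 : (σ x₀ α) ^ (2 * M) ≠ 0 := pow_ne_zero _ (by
        rw [ne_eq, map_eq_zero]
        exact alpha_ne hα)
      field_simp
      ring
  rw [Multiset.card_cons, Multiset.card_cons] at hsc hsn
  refine PairGenerated.pair hpair (ih t.card (by omega) t rfl (by omega)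
    (fun z hz => hs z (Multiset.mem_cons_of_mem (Multiset.mem_cons_of_mem hz))) ?_)
  refine tateRel_cancel (s := {x₀, y}) hq ?_ hpair
  rw [Multiset.insert_eq_cons, Multiset.cons_add, Multiset.singleton_add]
  exact ⟨j, hj, m, hm, hpr⟩

end

section

variable {p : ℕ} [Fact p.Prime] {E : Type} [Field E] [NumberField E] [IsCMField E] {α : E}

/-- The relations between few conjugates of the Weil number of a K3 surface are balanced. -/
theorem balanced_good (K : Type v) [Field K] [CharZero K] [IsAlgClosed K]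
    (ι : Qb →+* PadicAlgCl p) {a d m n : ℕ} (hα : IsK3Frobenius p a α)
    (hd : Module.finrank ℚ E = 2 * d) (hm : localDegree p α = m) (hgood : Good d m n) :
    BalancedUpTo K α n := by
  intro N w hw hN hprod σ
  have hz : ∀ i : Fin 1, ZeroProp ι α
      (tower (fun _ : Fin 1 => (⊤ : IntermediateField ℚ Qb)) ⊥ i) n := by
    intro i
    rw [Subsingleton.elim i 0]
    have h1 : tower (fun _ : Fin 1 => (⊤ : IntermediateField ℚ Qb)) ⊥ 0 = ⊥ := by
      unfold tower
      have h2 : IsEmpty {j : Fin 1 // j < 0} := ⟨fun j => absurd j.2 (Fin.not_lt_zero _)⟩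
      rw [iSup_of_empty, sup_bot_eq]
    rw [h1]
    exact k3_zero hα hd hm hgood (independent_bot (E := E))
  refine balanced_of_relation' (p := p) (ι := ι) (r := 1) (K := fun _ => E) (α := fun _ => α)
    (fun _ => N) (w := fun _ => w) (fun _ => hw) (W := 1) (β := (1 : K)) (x₀ := 1)
    one_ne_zero one_ne_zero ?_ (Q := Polynomial.X - 1) ?_ ?_ (L := ⊥) ?_
    (S := fun _ => ⊤) ?_ (d := fun _ => n) hz (fun _ => hN) 0 σ
  · rw [pow_one, mul_one, Rat.cast_one]
    unfold letterProd
    rw [Fin.prod_univ_one]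
    exact hprod
  · exact Polynomial.X_sub_C_ne_zero (1 : ℚ)
  · rw [map_sub, Polynomial.aeval_X, map_one, sub_self]
  · intro h _ β hβ
    rw [map_sub, Polynomial.aeval_X, map_one, sub_eq_zero] at hβ
    rw [hβ, map_one]
  · intro i h hh σ
    rw [hh _ IntermediateField.mem_top]

end

end Pool.Agent.Y138.KH
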