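import Pool.Agent.TH132.A.HMain
import Pool.Agent.TH121.KT.Geo

/-!
# The conjecture of Hodge type for the products with varieties with a property of the eigenvalues
-/

set_option autoImplicit false

open CategoryTheory AlgebraicGeometry

universe u v

namespace Pool.Agent.Y138.KH

open Pool.Agent.H914 Pool.Agent.H914.VarClass Pool.Agent.H914.VarClass.Obj
  Pool.Agent.H914.WeilCohomology Pool.Agent.H281R3.HT Pool.Agent.W552 Pool.Agent.W534
  Pool.Agent.W458.RK Pool.Agent.W458.MF Pool.Agent.TH132.A Pool.Agent.TH121.KT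

variable {k : Type u} [Field k] {𝒱 : VarClass k} {ops : CycleOps 𝒱}
  {W : WeilCohomology.{u, v} ops} {p : ℕ} {Φ : FrobSystem W p} {PP : W.K → Prop}

/-- The reduction of the conjecture of Hodge type for the products with all varieties whose
Frobenius eigenvalues have the property. -/
theorem hodge_timesP [IsAlgClosed W.K] (hp : 1 < p) {Q : Polarized 𝒱}
    (hT : TateTimesP Φ PP Q.X) (h1PP : PP 1) (hpow : ∀ ν (n : ℕ), 0 < n → PP ν → PP (ν ^ n))
    (hQ : ∃ f, Lw W Q.X Q.D f) (h1 : (1 : W.H Q.X) ≠ 0)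
    (hH : HodgeType W Q.X Q.D) {U : Polarized 𝒱}
    (hU : ∀ ν, Module.End.HasEigenvalue (W.map (Φ.Fr U.X)).toLinearMap ν → PP ν)
    (hB : U.X.IsCyc 1 U.D) (hHL : HardLefschetz W U.X U.D) :
    HodgeType W (Q.prod ops U).X (Q.prod ops U).D ↔ HodgeType W U.X U.D := by
  obtain ⟨f₀, F₀⟩ := hQ
  obtain ⟨f, F, hf⟩ := exists_lw F₀.hD F₀.hl
  obtain ⟨g, G, hg⟩ := exists_lw hB hHL
  have hst : Stable W Q.X f := stable_of_lefschetzA F.hD F.sl2
    (lefschetzA_of_D F.hD F.hl (homEqNum_of_tateTimesP hp hT h1PP))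
  exact ⟨fun h => hodge_of_prod F G hH h1 h, fun h => hodge_prod_of
    (fun z hz => tens_of_tateTimesP hp hT h1PP hpow hU hz) F hf F.hl hst hH G hg h⟩

end Pool.Agent.Y138.KH
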