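import Pool.Agent.Y138.KH.Diag
import Pool.Agent.Y138.KH.Times

/-!
# The conjecture of Hodge type for powers of K3 surfaces, and their products with independent
varieties
-/

set_option autoImplicit false

open CategoryTheory AlgebraicGeometry NumberField

universe u v

namespace Pool.Agent.Y138.KH

open Pool.Agent.H914 Pool.Agent.H914.VarClass Pool.Agent.H914.VarClass.Obj
  Pool.Agent.H914.WeilCohomology Pool.Agent.H281R3.HT Pool.Agent.W552 Pool.Agent.W534
  Pool.Agent.W458.RK Pool.Agent.W458.MF Pool.Agent.TH132.A Pool.Agent.W536.RR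
  Pool.Agent.TH121.KT Pool.Agent.W517.K3 Pool.Agent.Y138.KC Pool.Agent.W290.MF

variable {k : Type u} [Field k] {𝒱 : VarClass k} {ops : CycleOps 𝒱}
  {W : WeilCohomology.{u, v} ops} {p : ℕ} [Fact p.Prime] {Φ : FrobSystem W p} {X : 𝒱.Obj}
  {e : ℕ} {E : Type} [Field E] [NumberField E] [IsCMField E] {α : E}

theorem isPower_nest : ∀ (n : ℕ) (D : Fin (n + 1) → X.Cycles),
    KC.IsPower W X (n + 1) (nest ops n (fun i => (⟨X, D i⟩ : Polarized 𝒱))).X
  | 0, _ => KC.IsPower.base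
  | n + 1, D => by
    have h1 := KC.IsPower.prod (W := W) (X := X) KC.IsPower.base
      (isPower_nest n (fun i => D i.succ))
    rw [add_comm 1 (n + 1)] at h1
    exact h1

/-- **The conjecture of Hodge type for the powers.** -/
theorem hodge_powers [IsAlgClosed W.K] (ι : Qb →+* PadicAlgCl p) {a d m n : ℕ}
    (hα : IsK3Frobenius p a α) (hd : Module.finrank ℚ E = 2 * d) (hm : localDegree p α = m)
    (hgood : Good d m (n + 1)) (hgood2 : Good d m 2) (hX : HasWeilNumber Φ X e α)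
    {D : Fin (n + 1) → X.Cycles} (hD : ∀ i, X.IsCyc 1 (D i))
    (hdeg : ∀ i, 0 < X.V.degCycle (divPow ops (D i) X.dim X.V.fundCycle))
    (hHL : ∀ i, HardLefschetz W X (D i))
    (hH2 : ∀ i j, HodgeType W ((⟨X, D i⟩ : Polarized 𝒱).prod ops ⟨X, D j⟩).X
      ((⟨X, D i⟩ : Polarized 𝒱).prod ops ⟨X, D j⟩).D) :
    HodgeType W (nest ops n (fun i => (⟨X, D i⟩ : Polarized 𝒱))).X
      (nest ops n (fun i => (⟨X, D i⟩ : Polarized 𝒱))).D := by
  have hT2 : ∀ c, TateIn Φ (X.prod X) c := by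
    intro c y hy
    obtain ⟨s, hs, h⟩ := IsTate.mem Φ hy
    exact (main_good (ι := ι) hα hd hm hgood2 hX
      (KC.IsPower.prod KC.IsPower.base KC.IsPower.base)).1 c s hs h
  have hq : (p ^ Φ.e X : ℕ) ≠ 0 := pow_ne_zero _ Φ.p_pos.ne'
  have hqK : ((p ^ Φ.e X : ℕ) : W.K) ≠ 0 := Nat.cast_ne_zero.2 hq
  refine hodge_neat' (f := fun _ => W534.iter (Φ.Fr X) 1) (q := p ^ Φ.e X) hq hD hdeg hHL
    (fun _ => diag_of_weilNumber hX) (fun i => frob_one (P := ⟨X, D i⟩)) frob_nest_one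
    (fun i j => tate_pair (P := ⟨X, D i⟩) (Q := ⟨X, D j⟩) rfl rfl hT2) ?_ hH2
  intro s hs hw hrel
  refine pairGenerated_of_balanced (D := X.dim) hα.unitary hqK hX.pos
    (balanced_good W.K ι hα hd hm hgood) s.card s rfl hs ?_ hrel
  intro x hx
  obtain ⟨i, hi⟩ := hw x hx
  exact weight_cases hX hi

/-- **The conjecture of Hodge type for the products of the powers with all independent
varieties.** -/
theorem hodge_powers_times [IsAlgClosed W.K] {ι : Qb →+* PadicAlgCl p} {a d m n : ℕ}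
    (hα : IsK3Frobenius p a α) (hd : Module.finrank ℚ E = 2 * d) (hm : localDegree p α = m)
    (hgood : Good d m (n + 1)) (hX : HasWeilNumber Φ X e α)
    {D : Fin (n + 1) → X.Cycles} (hD : ∀ i, X.IsCyc 1 (D i))
    (hdeg : ∀ i, 0 < X.V.degCycle (divPow ops (D i) X.dim X.V.fundCycle))
    (hHL : ∀ i, HardLefschetz W X (D i))
    (hH : HodgeType W (nest ops n (fun i => (⟨X, D i⟩ : Polarized 𝒱))).X
      (nest ops n (fun i => (⟨X, D i⟩ : Polarized 𝒱))).D)
    {L : IntermediateField ℚ Qb} (hL : IsIndependentField E L) {U : Polarized 𝒱}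
    (hU : FrobeniusSlopes Φ ι L U.X) (hB : U.X.IsCyc 1 U.D) (hUL : HardLefschetz W U.X U.D) :
    HodgeType W ((nest ops n (fun i => (⟨X, D i⟩ : Polarized 𝒱))).prod ops U).X
      ((nest ops n (fun i => (⟨X, D i⟩ : Polarized 𝒱))).prod ops U).D ↔
      HodgeType W U.X U.D := by
  have hp := (Fact.out : p.Prime).one_lt
  obtain ⟨Q, hQ, hLQ, hroot⟩ := hU
  exact hodge_timesP hp (PP := InL p ι L)
    (times_of_good (ι := ι) hα hd hm hgood hX (isPower_nest n D) hL) (inL_one L)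
    (fun ν n hn h => inL_pow L ν n hn h)
    (nest_lw n _ fun i => by
      obtain ⟨f, Ff, -⟩ := exists_lw (hD i) (hHL i)
      exact ⟨f, Ff⟩)
    (nest_one n _ fun i => one_ne_of_deg (hD i) (hdeg i)) hH
    (fun ν hν => ⟨Q, ν, 1, one_pos, hQ, hLQ, hroot ν hν, (pow_one ν).symm⟩) hB hUL

end Pool.Agent.Y138.KH
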