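import Pool.Agent.Y138.KH.Neat
import Pool.Agent.Y138.KH.Rel
import Pool.Agent.W290.MF.Hodge

/-!
# Varieties with a Weil number: the Frobenius endomorphism on the products
-/

set_option autoImplicit false

open CategoryTheory AlgebraicGeometry NumberField

universe u v

namespace Pool.Agent.Y138.KH

open Pool.Agent.H914 Pool.Agent.H914.VarClass Pool.Agent.H914.VarClass.Obj
  Pool.Agent.H914.WeilCohomology Pool.Agent.H281R3.HT Pool.Agent.W552 Pool.Agent.W534
  Pool.Agent.W458.RK Pool.Agent.W458.MF Pool.Agent.TH132.A Pool.Agent.W536.RR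
  Pool.Agent.TH121.KT Pool.Agent.W517.K3 Pool.Agent.Y138.KC Pool.Agent.W290.MF

variable {k : Type u} [Field k] {𝒱 : VarClass k} {ops : CycleOps 𝒱}
  {W : WeilCohomology.{u, v} ops} {p : ℕ} {Φ : FrobSystem W p} {X : 𝒱.Obj} {e : ℕ}
  {E : Type} [Field E] {α : E}

lemma map_iter_one (x : W.H X) : W.map (W534.iter (Φ.Fr X) 1) x = W.map (Φ.Fr X) x := by
  rw [W534.map_iter, Function.iterate_one]

/-- the algebraic classes are sums of algebraic eigenvectors -/
lemma alg_le_span [IsAlgClosed W.K] (Φ : FrobSystem W p) (X : 𝒱.Obj) : algSpan W X ≤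
    Submodule.span W.K {v | v ∈ algSpan W X ∧ ∃ β : W.K, W.map (Φ.Fr X) v = β • v} := by
  intro a ha
  refine algSpan_induction (p := fun a => a ∈ Submodule.span W.K
    {v | v ∈ algSpan W X ∧ ∃ β : W.K, W.map (Φ.Fr X) v = β • v}) ?_ ?_ ?_ ?_ ha
  · exact Submodule.zero_mem _
  · exact fun a b ha hb => Submodule.add_mem _ ha hb
  · exact fun t a ha => Submodule.smul_mem _ _ ha
  · intro j z hz
    obtain ⟨s, hs, h1⟩ := Φ.cyc hz
    let T : Module.End W.K (algSpan W X) :=
      (W.map (Φ.Fr X)).toLinearMap.restrict (p := algSpan W X) (q := algSpan W X)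
        (fun x hx => algSpan_map (Φ.Fr X) hx)
    let z' : algSpan W X := ⟨W.cl X z, cl_mem_algSpan hz⟩
    have hTs : ∀ (s : ℕ) (y : algSpan W X), (((T ^ s) y : algSpan W X) : W.H X) =
        (W.map (Φ.Fr X))^[s] (y : W.H X) := by
      intro s
      induction s with
      | zero => intro y; rfl
      | succ s ih =>
        intro y
        rw [pow_succ, Module.End.mul_apply, ih, Function.iterate_succ_apply]
        rfl
    have h2 : (T ^ s) z' = ((p : W.K) ^ (Φ.e X * s * j)) • z' := by
      apply Subtype.ext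
      rw [hTs, ← W534.map_iter]
      exact h1
    have hp0 : (p : W.K) ≠ 0 := by
      exact_mod_cast Φ.p_pos.ne'
    have h3 := W552.eig_of_pow hs (pow_ne_zero _ hp0) h2
    have h4 := Submodule.mem_map_of_mem (f := (algSpan W X).subtype) h3
    rw [Submodule.map_span] at h4
    refine Submodule.span_mono ?_ h4
    rintro _ ⟨y, ⟨β, hy⟩, rfl⟩
    exact ⟨y.2, β, congrArg Subtype.val hy⟩

/-- the algebraic eigenvectors and the letters -/
def EigSet (Φ : FrobSystem W p) (X : 𝒱.Obj) (e : ℕ) (α : E) : Set (W.H X) :=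
  {v | v ∈ algSpan W X ∧ ∃ β : W.K, W.map (Φ.Fr X) v = β • v} ∪
    {v | ∃ σ, IsLetter Φ X e α σ v}

lemma span_eigSet [IsAlgClosed W.K] (hX : HasWeilNumber Φ X e α) :
    Submodule.span W.K (EigSet Φ X e α) = ⊤ := by
  rw [eq_top_iff, ← hX.spanned, EigSet, Submodule.span_union]
  exact sup_le_sup_right (alg_le_span Φ X) _

lemma eig_of_eigSet {v : W.H X} (hv : v ∈ EigSet Φ X e α) :
    ∃ β : W.K, W.map (Φ.Fr X) v = β • v := by
  rcases hv with ⟨-, h⟩ | ⟨σ, -, μ, N, -, h, -⟩
  · exact h
  · exact ⟨μ, h⟩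

theorem diag_of_weilNumber [IsAlgClosed W.K] (hX : HasWeilNumber Φ X e α) :
    Diagonalizable W (W534.iter (Φ.Fr X) 1) := by
  rw [Diagonalizable, eq_top_iff, ← span_eigSet hX]
  apply Submodule.span_le.2
  intro v hv
  obtain ⟨β, hβ⟩ := eig_of_eigSet hv
  refine Submodule.mem_iSup_of_mem β (Module.End.mem_eigenspace_iff.2 ?_)
  exact (map_iter_one v).trans hβ

/-- The eigenvalues on the cohomology. -/
theorem weight_cases [IsAlgClosed W.K] (hX : HasWeilNumber Φ X e α) {x : ℕ × W.K}
    (hx : IsWeight W (W534.iter (Φ.Fr X) 1) x) :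
    IsTateRel (p ^ Φ.e X) ({x} : Multiset (ℕ × W.K)) ∨
      IsLetterNum (p ^ Φ.e X) X.dim e α x := by
  obtain ⟨d, β⟩ := x
  obtain ⟨y, hy, hy0, hyβ⟩ := hx
  simp only at hy hyβ
  rw [map_iter_one] at hyβ
  have h1 : y ∈ Submodule.span W.K {v | v ∈ EigSet Φ X e α ∧
      (W.map (Φ.Fr X)).toLinearMap v = β • v} :=
    W552.mem_span_eigen (fun v hv => eig_of_eigSet hv) (span_eigSet hX) hyβ
  by_cases hL : d = X.dim ∧ ∃ v : W.H X, v ≠ 0 ∧ (∃ σ, IsLetter Φ X e α σ v) ∧
      W.map (Φ.Fr X) v = β • v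
  · right
    obtain ⟨hd, v, hv0, ⟨σ, hv, μ, N, hN, hμ, hrel⟩, hvβ⟩ := hL
    have h2 : μ = β := by
      rw [hμ] at hvβ
      exact smul_left_injective W.K hv0 hvβ
    subst h2
    refine ⟨hd, σ, N, hN, ?_⟩
    rw [hrel, Nat.cast_pow, ← pow_mul]
  · left
    have h2 : y ∈ algSpan W X := by
      rw [← proj_same (W.isInternal X) hy]
      have key : ∀ v ∈ Submodule.span W.K {v | v ∈ EigSet Φ X e α ∧
          (W.map (Φ.Fr X)).toLinearMap v = β • v},
          H914.proj (W.isInternal X) d v ∈ algSpan W X := by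
        intro v hv
        induction hv using Submodule.span_induction with
        | mem v hv =>
          obtain ⟨hv | ⟨σ, hv⟩, hvβ⟩ := hv
          · refine algSpan_induction (p := fun c => H914.proj (W.isInternal X) d c ∈
              algSpan W X) ?_ ?_ ?_ ?_ hv.1
            · rw [map_zero]; exact Submodule.zero_mem _
            · intro a b ha hb
              rw [map_add]; exact Submodule.add_mem _ ha hb
            · intro r a ha
              rw [map_smul]; exact Submodule.smul_mem _ _ ha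
            · intro i z hz
              by_cases h : d = 2 * i
              · subst h
                rw [proj_same _ (W.cl_mem hz)]
                exact cl_mem_algSpan hz
              · rw [proj_ne _ (W.cl_mem hz) (by omega)]
                exact Submodule.zero_mem _
          · by_cases hv0 : v = 0
            · rw [hv0, map_zero]
              exact Submodule.zero_mem _
            · have h3 : d ≠ X.dim := fun h => hL ⟨h, v, hv0, ⟨σ, hv⟩, hvβ⟩
              rw [proj_ne _ hv.1 (by omega)]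
              exact Submodule.zero_mem _
        | zero => rw [map_zero]; exact Submodule.zero_mem _
        | add x y _ _ hx hy => rw [map_add]; exact Submodule.add_mem _ hx hy
        | smul t x _ hx => rw [map_smul]; exact Submodule.smul_mem _ _ hx
      exact key y h1
    obtain ⟨j, rfl⟩ := even_of_alg h2 hy hy0
    have h3 := spanCycles_of_alg h2 hy
    obtain ⟨r, hr, h4⟩ := exists_span_eig Φ X j
    have h5 : frob Φ X r y = β ^ r • y := by
      rw [frob_apply, W534.map_iter]
      exact W534.iterate_eig (fun a x => map_smul (W.map (Φ.Fr X)) a x) hyβ r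
    rw [h4 y h3, card_pow] at h5
    refine ⟨j, ?_, r, hr, ?_⟩
    · simp
    · have h6 := smul_left_injective W.K hy0 h5
      rw [Multiset.map_singleton, Multiset.prod_singleton]
      change β ^ r = _
      rw [← h6, Nat.cast_pow, ← pow_mul]
      congr 1
      ring

/-- The Tate conjecture for `X × X` and the product of the Frobenius endomorphisms. -/
theorem tate_pair {P Q : Polarized 𝒱} (hP : P.X = X) (hQ : Q.X = X)
    (hT : ∀ c, TateIn Φ (X.prod X) c) :
    TateClassesAlgebraic W (P.X.prod Q.X)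
      (pairMap (W534.iter (Φ.Fr P.X) 1) (W534.iter (Φ.Fr Q.X) 1)) (p ^ Φ.e X) := by
  obtain ⟨X', D⟩ := P
  obtain ⟨X'', D'⟩ := Q
  obtain rfl : X' = X := hP
  obtain rfl : X'' = X' := hQ
  have hM : 0 < Φ.e X'' := Φ.e_pos _
  obtain ⟨A, r, hA, hr, he, h⟩ := nest_level Φ ops hM 1
    (Fin.cons (α := fun _ => Polarized 𝒱) ⟨X'', D⟩ (fun _ => ⟨X'', D'⟩)) (fun _ => 1) (by
      intro a
      refine Fin.cases ?_ (fun i => ?_) a <;> simp [Fin.cons_zero, Fin.cons_succ])
  intro j c hc hcm
  obtain ⟨m, hm, hcm⟩ := hcm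
  have h1 : IsTate Φ (X''.prod X'') j c := by
    refine ⟨hc, A * m, Nat.mul_pos hA hm, ?_⟩
    have h2 : (⇑(W.map (W534.iter (Φ.Fr (X''.prod X'')) A)) :
        W.H (X''.prod X'') → W.H (X''.prod X'')) =
        W.map (W534.iter (pairMap (W534.iter (Φ.Fr X'') 1) (W534.iter (Φ.Fr X'') 1)) r) :=
      funext h
    rw [W534.map_iter_mul, h2, ← W534.map_iter_mul, mul_comm r m, W534.map_iter_mul]
    have h3 : W.map (W534.iter (pairMap (W534.iter (Φ.Fr X'') 1) (W534.iter (Φ.Fr X'') 1)) m) c =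
        ((p ^ Φ.e X'' : ℕ) : W.K) ^ (m * j) • c := by
      rw [W534.map_iter]
      exact hcm
    rw [W534.iterate_eig (fun a x => map_smul _ a x) h3 r, Nat.cast_pow, ← pow_mul, ← pow_mul]
    congr 2
    have he' : A * Φ.e (X''.prod X'') = r * Φ.e X'' := he
    calc Φ.e X'' * (m * j * r) = r * Φ.e X'' * (m * j) := by ring
      _ = A * Φ.e (X''.prod X'') * (m * j) := by rw [he']
      _ = Φ.e (X''.prod X'') * (A * m) * j := by ring
  exact W397.MF.spanCycles_le_algSpan _ (hT j c h1)

/-- The Frobenius endomorphism on the cycles. -/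
theorem frob_one {P : Polarized 𝒱} :
    FrobeniusOnCycles W P.X (W534.iter (Φ.Fr P.X) 1) (p ^ Φ.e P.X) :=
  frob_nest (Φ.e_pos P.X) 0 (fun _ => P) (fun _ => 1) (fun _ => mul_one _)

theorem frob_nest_one {n : ℕ} {D : Fin (n + 1) → X.Cycles} :
    FrobeniusOnCycles W (nest ops n (fun i => (⟨X, D i⟩ : Polarized 𝒱))).X
      (nestMap ops n (fun i => (⟨X, D i⟩ : Polarized 𝒱))
        (fun _ => W534.iter (Φ.Fr X) 1)) (p ^ Φ.e X) :=
  frob_nest (Φ.e_pos X) n (fun i => (⟨X, D i⟩ : Polarized 𝒱)) (fun _ => 1) (fun _ => mul_one _)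

end Pool.Agent.Y138.KH
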